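import Mathlib
import Pool.Agent.Q123.ScarfObs

/-!
# MP_0a8151_al: Scarf complexes of powers of extremal ideals

We show that for all `q ≥ 6`, `r ≥ 5` (every field, every order used for the signs) the Scarf
complex of `E_q ^ r` does not support a free resolution of `E_q ^ r`: the homogenized chain complex
is not exact at the chains on the triangles.  So the statement of Q1 is false.

The multidegree: for `q = 6`, `r = 5` take the lcm of `ε^b`, `b` running over the five vectors
`(0,0,0,1,3,1), (1,1,1,0,2,0), (1,1,2,0,1,0), (1,2,1,0,1,0), (1,2,2,0,0,0)`.  These are the only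
generators dividing it, and the Scarf faces among them form the boundary of a triangular bipyramid.
-/

open Finset Pool.Agent.Q123.Scarf

namespace Pool.Agent.Results.MP_0a8151_al.ScarfFails

/-- The variables `x_A`, `∅ ≠ A ⊆ [q]`. -/
abbrev Vars (q : ℕ) := {A : Finset (Fin q) // A.Nonempty}

/-- The exponents `a ∈ ℕ^q` with `a_1 + ... + a_q = r`. -/
abbrev G (q r : ℕ) := {a : Fin q → ℕ // ∑ i, a i = r}

/-- The extremal ideal `E_q = (ε_1, ..., ε_q)`, `ε_i = ∏_{A ∋ i} x_A`. -/
noncomputable def extremalIdeal (k : Type*) [Field k] (q : ℕ) : Ideal (MvPolynomial (Vars q) k) :=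
  Ideal.span (Set.range fun i : Fin q => ∏ A : Vars q with i ∈ A.1, MvPolynomial.X A)

/-- The exponent vector of the generator `ε^a = ε_1^{a_1} ⋯ ε_q^{a_q}`. -/
noncomputable def gen (q r : ℕ) (a : G q r) : Vars q →₀ ℕ :=
  ∑ i, a.1 i • ∑ A : Vars q with i ∈ A.1, Finsupp.single A 1

/-- Sanity check: `gen q r a` is the exponent vector of `ε^a`. -/
lemma monomial_gen (k : Type*) [Field k] (q r : ℕ) (a : G q r) :
    MvPolynomial.monomial (gen q r a) (1 : k) =
      ∏ i, (∏ A : Vars q with i ∈ A.1, MvPolynomial.X A) ^ a.1 i := by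
  unfold gen
  rw [MvPolynomial.monomial_sum_one]
  apply Finset.prod_congr rfl
  intro i _
  have : (∏ A : Vars q with i ∈ A.1, (MvPolynomial.X A : MvPolynomial (Vars q) k)) =
      MvPolynomial.monomial (∑ A : Vars q with i ∈ A.1, Finsupp.single A 1) 1 := by
    rw [MvPolynomial.monomial_sum_one]
    rfl
  rw [this, MvPolynomial.monomial_pow, one_pow]

lemma gen_apply (q r : ℕ) (a : G q r) (A : Vars q) : gen q r a A = ∑ i ∈ A.1, a.1 i := by
  unfold gen
  rw [Finsupp.finsetSum_apply]
  simp_rw [Finsupp.smul_apply, Finsupp.finsetSum_apply, Finsupp.single_apply]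
  rw [← Finset.sum_filter_add_sum_filter_not univ (· ∈ A.1)]
  have h1 : ∀ i : Fin q, (∑ B : Vars q with i ∈ B.1, if B = A then 1 else 0) =
      if i ∈ A.1 then 1 else 0 := by
    intro i
    rw [Finset.sum_ite_eq' (univ.filter fun B : Vars q => i ∈ B.1) A (fun _ => 1)]
    simp
  simp_rw [h1]
  simp

lemma sup_apply {q : ℕ} {J : Type*} (S : Finset J) (f : J → Vars q →₀ ℕ) (A : Vars q) :
    (S.sup f) A = S.sup (fun j => f j A) := by
  classical
  induction S using Finset.induction_on with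
  | empty => rfl
  | insert a s ha ih => rw [Finset.sup_insert, Finset.sup_insert, Finsupp.sup_apply, ih]

/-- The five exponent vectors (for `q = 6`, `r = 5`). -/
def BL : List (List ℕ) :=
  [[0,0,0,1,3,1],[1,1,1,0,2,0],[1,1,2,0,1,0],[1,2,1,0,1,0],[1,2,2,0,0,0]]

def Bn (j : Fin 5) (i : ℕ) : ℕ := (BL.getD j []).getD i 0

def bw (j : Fin 5) (t0 t1 t2 t3 t4 t5 : Bool) : ℕ :=
  t0.toNat * Bn j 0 + t1.toNat * Bn j 1 + t2.toNat * Bn j 2 + t3.toNat * Bn j 3 +
    t4.toNat * Bn j 4 + t5.toNat * Bn j 5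

lemma F1 : ∀ a b c d e f : Bool, bw 2 a b c d e f ≤ max (bw 1 a b c d e f) (bw 4 a b c d e f) ∧
    bw 3 a b c d e f ≤ max (bw 1 a b c d e f) (bw 4 a b c d e f) ∧
    bw 1 a b c d e f ≤ max (max (bw 0 a b c d e f) (bw 2 a b c d e f)) (bw 3 a b c d e f) := by
  decide

lemma F2 : ∀ T ∈ ({{0,1,2},{0,1,3},{0,2,4},{0,3,4},{1,2,3},{2,3,4}} : Finset (Finset (Fin 5))),
    ∀ v : Fin 5, ∃ a b c d e f : Bool, 0 < bw v a b c d e f ∧
      ∀ u ∈ T.erase v, bw u a b c d e f < bw v a b c d e f := by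
  decide

lemma F3 (w0 w1 w2 w3 w4 w5 : ℕ) (hs : w0 + w1 + w2 + w3 + w4 + w5 = 5)
    (h1 : w0 + w3 ≤ 1) (h2 : w1 + w3 + w5 ≤ 2) (h3 : w2 + w3 + w5 ≤ 2)
    (h4 : w1 + w2 + w4 + w5 ≤ 4) (h5 : w0 + w1 + w4 + w5 ≤ 4) (h6 : w2 + w4 ≤ 3)
    (h7 : w1 + w2 + w3 + w4 ≤ 4) (h8 : w0 + w5 ≤ 1) :
    ∃ j : Fin 5, w0 = Bn j 0 ∧ w1 = Bn j 1 ∧ w2 = Bn j 2 ∧ w3 = Bn j 3 ∧ w4 = Bn j 4 ∧
      w5 = Bn j 5 := by
  have b0 : w0 < 2 := by omega
  have b3 : w3 < 2 := by omega
  have b5 : w5 < 2 := by omega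
  have b1 : w1 < 3 := by omega
  have b2 : w2 < 3 := by omega
  obtain rfl : w4 = 5 - w0 - w1 - w2 - w3 - w5 := by omega
  have key : ∀ a : Fin 2, ∀ d : Fin 2, ∀ f : Fin 2, ∀ b : Fin 3, ∀ c : Fin 3,
      (a.val + d ≤ 1 ∧ b.val + d + f ≤ 2 ∧ c.val + d + f ≤ 2 ∧
      b.val + c + (5 - a.val - b.val - c.val - d.val - f.val) + f ≤ 4 ∧ a.val + b + (5 - a.val - b.val - c.val - d.val - f.val) + f ≤ 4 ∧
      c.val + (5 - a.val - b.val - c.val - d.val - f.val) ≤ 3 ∧ b.val + c + d + (5 - a.val - b.val - c.val - d.val - f.val) ≤ 4 ∧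
      a.val + f ≤ 1) →
      ∃ j : Fin 5, a.val = Bn j 0 ∧ b.val = Bn j 1 ∧ c.val = Bn j 2 ∧ d.val = Bn j 3 ∧
        (5 - a.val - b.val - c.val - d.val - f.val) = Bn j 4 ∧ f.val = Bn j 5 := by
    decide
  exact key ⟨w0, b0⟩ ⟨w3, b3⟩ ⟨w5, b5⟩ ⟨w1, b1⟩ ⟨w2, b2⟩ ⟨h1, h2, h3, h4, h5, h6, h7, h8⟩

lemma Bn_zero (j : Fin 5) (i : ℕ) (hi : 6 ≤ i) : Bn j i = 0 := by
  obtain ⟨i, rfl⟩ := Nat.exists_eq_add_of_le' hi
  fin_cases j <;> rfl

/-- membership bits of a set of indices. -/
def bit {q : ℕ} (A : Finset (Fin q)) (i : ℕ) : Bool := decide (i ∈ A.map Fin.valEmbedding)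

lemma sum_eq {q : ℕ} (A : Finset (Fin q)) (f : ℕ → ℕ) (hf : ∀ i, 6 ≤ i → f i = 0) :
    ∑ i ∈ A, f i.val = (bit A 0).toNat * f 0 + (bit A 1).toNat * f 1 + (bit A 2).toNat * f 2 +
      (bit A 3).toNat * f 3 + (bit A 4).toNat * f 4 + (bit A 5).toNat * f 5 := by
  have h0 : ∑ i ∈ A, f i.val = ∑ i ∈ A.map Fin.valEmbedding, f i := by
    rw [Finset.sum_map]; rfl
  have h1 : ∑ i ∈ A.map Fin.valEmbedding, f i = ∑ i ∈ range 6, (bit A i).toNat * f i := by
    rw [← Finset.sum_filter_of_ne (p := fun i => i < 6)]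
    · have e : (A.map Fin.valEmbedding).filter (fun i => i < 6) =
          (range 6).filter (fun i => i ∈ A.map Fin.valEmbedding) := by
        ext i
        simp only [Finset.mem_filter, Finset.mem_range]
        exact and_comm
      rw [e, Finset.sum_filter]
      apply Finset.sum_congr rfl
      intro i _
      unfold bit
      split_ifs with h <;> simp [h]
    · intro i _ hne
      by_contra hlt
      exact hne (hf i (not_lt.mp hlt))
  rw [h0, h1]
  simp [Finset.sum_range_succ]

/-- The five generators of `E_q ^ r`. -/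
def pf (r : ℕ) (j : Fin 5) (i : ℕ) : ℕ := Bn j i + if i = 0 then r - 5 else 0

lemma pf_zero (r : ℕ) (j : Fin 5) (i : ℕ) (hi : 6 ≤ i) : pf r j i = 0 := by
  unfold pf
  rw [Bn_zero j i hi, if_neg (by omega)]

/-- indicator set. -/
def setOf' {q : ℕ} (t : ℕ → Bool) : Finset (Fin q) := univ.filter (fun i => t i.val = true)

lemma bit_setOf {q : ℕ} (t : ℕ → Bool) (i : ℕ) (hi : i < q) :
    bit (setOf' t : Finset (Fin q)) i = t i := by
  unfold bit setOf'
  by_cases h : t i = true
  · rw [h]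
    simp only [decide_eq_true_eq, Finset.mem_map, Finset.mem_filter, Finset.mem_univ, true_and]
    exact ⟨⟨i, hi⟩, h, rfl⟩
  · rw [Bool.not_eq_true] at h
    rw [h]
    simp only [decide_eq_false_iff_not, Finset.mem_map, Finset.mem_filter, Finset.mem_univ,
      true_and, not_exists, not_and]
    rintro x hx hxi
    have : x.val = i := hxi
    rw [this, h] at hx
    exact absurd hx (by decide)

lemma sum_pf {q : ℕ} (r : ℕ) (j : Fin 5) (A : Finset (Fin q)) :
    ∑ i ∈ A, pf r j i.val = bw j (bit A 0) (bit A 1) (bit A 2) (bit A 3) (bit A 4) (bit A 5) +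
      (bit A 0).toNat * (r - 5) := by
  rw [sum_eq A (pf r j) (pf_zero r j)]
  unfold bw pf
  simp only [if_true, reduceIte, OfNat.ofNat_ne_zero, one_ne_zero]
  ring

lemma bit_univ {q : ℕ} (i : ℕ) (hi : i < q) : bit (univ : Finset (Fin q)) i = true := by
  unfold bit
  simp only [decide_eq_true_eq, Finset.mem_map, Finset.mem_univ, true_and]
  exact ⟨⟨i, hi⟩, rfl⟩

variable {q r : ℕ}

def p (hq : 6 ≤ q) (hr : 5 ≤ r) (j : Fin 5) : G q r :=
  ⟨fun i => pf r j i.val, by
    rw [sum_pf, bit_univ 0 (by omega), bit_univ 1 (by omega), bit_univ 2 (by omega),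
      bit_univ 3 (by omega), bit_univ 4 (by omega), bit_univ 5 (by omega)]
    have : bw j true true true true true true = 5 := by
      revert j; decide
    rw [this]
    simp
    omega⟩

lemma p_inj (hq : 6 ≤ q) (hr : 5 ≤ r) : Function.Injective (p hq hr) := by
  intro i j hij
  have h : ∀ n (hn : n < q), pf r i n = pf r j n := fun n hn =>
    congrFun (congrArg Subtype.val hij) ⟨n, hn⟩
  have h3 := h 3 (by omega)
  have h1 := h 1 (by omega)
  have h2 := h 2 (by omega)
  unfold pf at h1 h2 h3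
  simp only [OfNat.ofNat_ne_zero, one_ne_zero, if_false, add_zero] at h1 h2 h3
  revert i j
  have : ∀ i j : Fin 5, Bn i 1 = Bn j 1 → Bn i 2 = Bn j 2 → Bn i 3 = Bn j 3 → i = j := by decide
  intro i j _ _ h1 h2 h3
  exact this i j (by assumption) (by assumption) (by assumption)

lemma gen_p (hq : 6 ≤ q) (hr : 5 ≤ r) (j : Fin 5) (A : Vars q) :
    gen q r (p hq hr j) A = bw j (bit A.1 0) (bit A.1 1) (bit A.1 2) (bit A.1 3) (bit A.1 4)
      (bit A.1 5) + (bit A.1 0).toNat * (r - 5) := by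
  rw [gen_apply]
  exact sum_pf r j A.1

lemma label_map_apply (hq : 6 ≤ q) (hr : 5 ≤ r) (S : Finset (Fin 5)) (A : Vars q) :
    label (gen q r) (S.map ⟨p hq hr, p_inj hq hr⟩) A =
      S.sup (fun j => gen q r (p hq hr j) A) := by
  unfold label
  rw [Finset.sup_map, sup_apply]
  rfl

/-- the set with given bits. -/
def bs (t0 t1 t2 t3 t4 t5 : Bool) (i : ℕ) : Bool := [t0, t1, t2, t3, t4, t5].getD i false

lemma nonempty_bs (hq : 6 ≤ q) (j : Fin 5) (t0 t1 t2 t3 t4 t5 : Bool)
    (h : 0 < bw j t0 t1 t2 t3 t4 t5) :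
    (setOf' (bs t0 t1 t2 t3 t4 t5) : Finset (Fin q)).Nonempty := by
  by_contra hne
  rw [Finset.not_nonempty_iff_eq_empty] at hne
  have hb : ∀ i, i < 6 → bs t0 t1 t2 t3 t4 t5 i = false := by
    intro i hi
    rw [← bit_setOf (q := q) (bs t0 t1 t2 t3 t4 t5) i (by omega), hne]
    simp [bit]
  have e0 : t0 = false := hb 0 (by omega)
  have e1 : t1 = false := hb 1 (by omega)
  have e2 : t2 = false := hb 2 (by omega)
  have e3 : t3 = false := hb 3 (by omega)
  have e4 : t4 = false := hb 4 (by omega)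
  have e5 : t5 = false := hb 5 (by omega)
  subst e0 e1 e2 e3 e4 e5
  simp [bw] at h

/-- The multidegree has only the five generators below it. -/
lemma only_five (hq : 6 ≤ q) (hr : 5 ≤ r) (w : G q r)
    (hw : gen q r w ≤ label (gen q r) (univ.map ⟨p hq hr, p_inj hq hr⟩)) :
    ∃ j, w = p hq hr j := by
  have hw' : ∀ A : Vars q, gen q r w A ≤ univ.sup (fun j => gen q r (p hq hr j) A) := by
    intro A
    rw [← label_map_apply]
    exact hw A
  have hbig : ∀ i : Fin q, 6 ≤ i.val → w.1 i = 0 := by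
    intro i hi
    have := hw' ⟨{i}, Finset.singleton_nonempty i⟩
    rw [gen_apply, Finset.sum_singleton] at this
    apply Nat.eq_zero_of_le_zero
    refine this.trans (Finset.sup_le ?_)
    intro j _
    rw [gen_apply, Finset.sum_singleton]
    exact (pf_zero r j i hi).le
  let wn : ℕ → ℕ := fun i => if h : i < q then w.1 ⟨i, h⟩ else 0
  have hwn : ∀ i : Fin q, w.1 i = wn i.val := by
    intro i
    simp [wn]
  have hwn0 : ∀ i, 6 ≤ i → wn i = 0 := by
    intro i hi
    simp only [wn]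
    split_ifs with h
    · exact hbig ⟨i, h⟩ hi
    · rfl
  have hsum : ∀ A : Finset (Fin q), ∑ i ∈ A, w.1 i = (bit A 0).toNat * wn 0 +
      (bit A 1).toNat * wn 1 + (bit A 2).toNat * wn 2 + (bit A 3).toNat * wn 3 +
      (bit A 4).toNat * wn 4 + (bit A 5).toNat * wn 5 := by
    intro A
    rw [← sum_eq A wn hwn0]
    exact Finset.sum_congr rfl fun i _ => hwn i
  have hcon : ∀ (t0 t1 t2 t3 t4 t5 : Bool) (j : Fin 5) (c : ℕ), 0 < bw j t0 t1 t2 t3 t4 t5 →
      (∀ j, bw j t0 t1 t2 t3 t4 t5 ≤ c) →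
      t0.toNat * wn 0 + t1.toNat * wn 1 + t2.toNat * wn 2 + t3.toNat * wn 3 + t4.toNat * wn 4 +
        t5.toNat * wn 5 ≤ c + t0.toNat * (r - 5) := by
    intro t0 t1 t2 t3 t4 t5 j c hpos hc
    have h := hw' ⟨setOf' (bs t0 t1 t2 t3 t4 t5), nonempty_bs hq j _ _ _ _ _ _ hpos⟩
    have hsup : univ.sup (fun j' => gen q r (p hq hr j')
        ⟨setOf' (bs t0 t1 t2 t3 t4 t5), nonempty_bs hq j _ _ _ _ _ _ hpos⟩) ≤
        c + t0.toNat * (r - 5) := by
      apply Finset.sup_le
      intro j' _
      rw [gen_p]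
      simp only [bit_setOf _ 0 (by omega : 0 < q), bit_setOf _ 1 (by omega : 1 < q),
        bit_setOf _ 2 (by omega : 2 < q), bit_setOf _ 3 (by omega : 3 < q),
        bit_setOf _ 4 (by omega : 4 < q), bit_setOf _ 5 (by omega : 5 < q)]
      exact Nat.add_le_add_right (hc j') _
    have h2 := h.trans hsup
    rw [gen_apply, hsum] at h2
    simp only [bit_setOf _ 0 (by omega : 0 < q), bit_setOf _ 1 (by omega : 1 < q),
        bit_setOf _ 2 (by omega : 2 < q), bit_setOf _ 3 (by omega : 3 < q),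
        bit_setOf _ 4 (by omega : 4 < q), bit_setOf _ 5 (by omega : 5 < q)] at h2
    exact h2
  have htot := hsum univ
  rw [w.2, bit_univ 0 (by omega), bit_univ 1 (by omega), bit_univ 2 (by omega),
    bit_univ 3 (by omega), bit_univ 4 (by omega), bit_univ 5 (by omega)] at htot
  simp only [Bool.toNat_true, one_mul] at htot
  have c0 := hcon false true true true true true 0 5 (by decide) (by decide)
  have c1 := hcon true false false true false false 0 1 (by decide) (by decide)
  have c2 := hcon false true false true false true 0 2 (by decide) (by decide)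
  have c3 := hcon false false true true false true 0 2 (by decide) (by decide)
  have c4 := hcon false true true false true true 0 4 (by decide) (by decide)
  have c5 := hcon true true false false true true 0 4 (by decide) (by decide)
  have c6 := hcon false false true false true false 0 3 (by decide) (by decide)
  have c7 := hcon false true true true true false 0 4 (by decide) (by decide)
  have c8 := hcon true false false false false true 0 1 (by decide) (by decide)
  simp only [Bool.toNat_true, Bool.toNat_false, one_mul, zero_mul, zero_add, add_zero] at c0 c1 c2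
  simp only [Bool.toNat_true, Bool.toNat_false, one_mul, zero_mul, zero_add, add_zero] at c3 c4 c5
  simp only [Bool.toNat_true, Bool.toNat_false, one_mul, zero_mul, zero_add, add_zero] at c6 c7 c8
  obtain ⟨j, j0, j1, j2, j3, j4, j5⟩ := F3 (wn 0 - (r - 5)) (wn 1) (wn 2) (wn 3) (wn 4) (wn 5)
    (by omega) (by omega) (by omega) (by omega) (by omega) (by omega) (by omega) (by omega)
    (by omega)
  refine ⟨j, ?_⟩
  apply Subtype.ext
  funext i
  show w.1 i = pf r j i.val
  rw [hwn]
  rcases lt_or_ge i.val 6 with h | h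
  · generalize i.val = n at h
    unfold pf
    interval_cases n
    · rw [if_pos rfl]; omega
    · rw [if_neg (by omega)]; omega
    · rw [if_neg (by omega)]; omega
    · rw [if_neg (by omega)]; omega
    · rw [if_neg (by omega)]; omega
    · rw [if_neg (by omega)]; omega
  · rw [hwn0 _ h, pf_zero r j _ h]

/-- **Theorem.**  For all `q ≥ 6`, `r ≥ 5`, every field `k` and every total order of the generators
(used for the simplicial signs), the homogenized chain complex of the Scarf complex of `E_q ^ r` is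
not exact at the chains on faces with three vertices (homological degree `2`); in particular the
Scarf complex does not support a free resolution of `E_q ^ r`. -/
theorem result (q r : ℕ) (hq : 6 ≤ q) (hr : 5 ≤ r) (k : Type*) [Field k] [LinearOrder (G q r)] :
    ¬ ExactAt k (gen q r) {σ | IsScarf (gen q r) σ} 3 ∧
    ¬ Supports k (gen q r) {σ | IsScarf (gen q r) σ} (extremalIdeal k q ^ r) := by
  have main : ¬ ExactAt k (gen q r) {σ | IsScarf (gen q r) σ} 3 := by
    apply not_exactAt (p hq hr) (p_inj hq hr)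
    · exact only_five hq hr
    · intro A
      rw [Finsupp.sup_apply, gen_p, gen_p, gen_p]
      have := (F1 (bit A.1 0) (bit A.1 1) (bit A.1 2) (bit A.1 3) (bit A.1 4) (bit A.1 5)).1
      omega
    · intro A
      rw [Finsupp.sup_apply, gen_p, gen_p, gen_p]
      have := (F1 (bit A.1 0) (bit A.1 1) (bit A.1 2) (bit A.1 3) (bit A.1 4) (bit A.1 5)).2.1
      omega
    · intro A
      rw [Finsupp.sup_apply, Finsupp.sup_apply, gen_p, gen_p, gen_p, gen_p]
      have := (F1 (bit A.1 0) (bit A.1 1) (bit A.1 2) (bit A.1 3) (bit A.1 4) (bit A.1 5)).2.2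
      omega
    · intro T hT v hle
      obtain ⟨a, b, c, d, e, f, hpos, hlt⟩ := F2 T hT v
      have h := hle ⟨setOf' (bs a b c d e f), nonempty_bs hq v _ _ _ _ _ _ hpos⟩
      rw [label_map_apply] at h
      apply absurd h
      rw [not_le]
      have hval : ∀ u : Fin 5, gen q r (p hq hr u)
          ⟨setOf' (bs a b c d e f), nonempty_bs hq v _ _ _ _ _ _ hpos⟩ =
          bw u a b c d e f + a.toNat * (r - 5) := by
        intro u
        rw [gen_p]
        simp only [bit_setOf _ 0 (by omega : 0 < q), bit_setOf _ 1 (by omega : 1 < q),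
          bit_setOf _ 2 (by omega : 2 < q), bit_setOf _ 3 (by omega : 3 < q),
          bit_setOf _ 4 (by omega : 4 < q), bit_setOf _ 5 (by omega : 5 < q)]
        rfl
      rw [Finset.sup_lt_iff]
      · intro u hu
        rw [hval, hval]
        exact Nat.add_lt_add_right (hlt u hu) _
      · rw [hval]
        exact Nat.lt_of_lt_of_le hpos (Nat.le_add_right _ _)
  exact ⟨main, fun h => main (h.2 3 (by norm_num))⟩

end Pool.Agent.Results.MP_0a8151_al.ScarfFails
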